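import Pool.Agent.GBS.Stmts
import Pool.Agent.GBS.StmtsB

/-!
# GBS, row CGB: Chern-Gauss-Bonnet, assembly
-/

set_option autoImplicit false

open MeasureTheory

namespace Pool.Agent.GBS.H17

open Pool.Agent.MVS Pool.Agent.MVS.H38

theorem cgb (hCGI : CgiStatement) (hRDE : RdeStmt) : CgbStmt := by
  intro G hG
  obtain ⟨h1, h2⟩ := hCGI G (Pool.Agent.MVS.H38.rG (Fin 5)) hG Pool.Agent.MVS.H38.rG_cyl
  exact ⟨h1, h2.trans hRDE.2⟩

end Pool.Agent.GBS.H17
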